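import Mathlib

set_option autoImplicit false
set_option linter.unusedSimpArgs false
set_option linter.unnecessarySeqFocus false
set_option linter.unusedTactic false
set_option linter.unreachableTactic false

namespace Pool.Agent.Results.MP_8f98a9_co.Counter

section Defs
variable {n : ℕ}

/-- A lattice point of `M = ℤⁿ` seen in `ℝⁿ`. -/
def toR (w : Fin n → ℤ) : Fin n → ℝ := fun i => (w i : ℝ)

/-- The lattice points of a set. -/
def latt (A : Set (Fin n → ℝ)) : Set (Fin n → ℤ) := {w | toR w ∈ A}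

/-- The lattice polytope spanned by a finite set of lattice points. -/
def poly (S : Finset (Fin n → ℤ)) : Set (Fin n → ℝ) := convexHull ℝ (toR '' (S : Set (Fin n → ℤ)))

/-- The dilate `rP`. -/
def dil (r : ℕ) (P : Set (Fin n → ℝ)) : Set (Fin n → ℝ) := {y | ∃ x ∈ P, y = (r : ℝ) • x}

/-- `(P ∩ M) + (rP ∩ M) = (r+1)P ∩ M` for all `r ≥ 1`. -/
def IntegrallyClosed (P : Set (Fin n → ℝ)) : Prop :=
  ∀ r : ℕ, 1 ≤ r → {w | ∃ a ∈ latt P, ∃ b ∈ latt (dil r P), w = a + b} = latt (dil (r + 1) P)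

/-- The segment `[u, v]` is an edge (one-dimensional face) of `P`. -/
def IsEdge (P : Set (Fin n → ℝ)) (u v : Fin n → ℝ) : Prop :=
  u ≠ v ∧ IsExtreme ℝ P (segment ℝ u v)

/-- Lattice length `#(e ∩ M) - 1` of the segment `e = [u, v]`. -/
noncomputable def latticeLength (u v : Fin n → ℝ) : ℝ := ((latt (segment ℝ u v)).ncard : ℝ) - 1

/-- The tangent cone of `P` at `u`, translated to `0`. -/
def vertexCone (P : Set (Fin n → ℝ)) (u : Fin n → ℝ) : Set (Fin n → ℝ) :=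
  {y | ∃ t : ℝ, 0 ≤ t ∧ ∃ x ∈ P, y = t • (x - u)}

/-- Primitive generators of the extreme rays of the cone `Q`. -/
def rays (Q : Set (Fin n → ℝ)) : Set (Fin n → ℤ) :=
  {w | w ≠ 0 ∧ (∀ (k : ℕ) (w' : Fin n → ℤ), w = k • w' → k = 1) ∧
    IsExtreme ℝ Q {y | ∃ t : ℝ, 0 ≤ t ∧ y = t • toR w}}

/-- The minimal Hilbert basis of `Q ∩ M`: its irreducible nonzero elements. -/
def hilb (Q : Set (Fin n → ℝ)) : Set (Fin n → ℤ) :=
  {β | β ∈ latt Q ∧ β ≠ 0 ∧ ∀ a ∈ latt Q, ∀ b ∈ latt Q, β = a + b → a = 0 ∨ b = 0}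

noncomputable def ht (Q : Set (Fin n → ℝ)) (u : Fin n → ℤ) : ℝ :=
  sSup {s | ∃ a : (Fin n → ℤ) →₀ ℝ, (∀ w ∈ a.support, w ∈ rays Q) ∧ (∀ w, 0 ≤ a w) ∧
    toR u = a.sum (fun w c => c • toR w) ∧ s = a.sum (fun _ c => c)}

noncomputable def ord (Q : Set (Fin n → ℝ)) (u : Fin n → ℤ) : ℝ :=
  sSup {s | ∃ l : (Fin n → ℤ) →₀ ℕ, (∀ β ∈ l.support, β ∈ hilb Q) ∧
    u = l.sum (fun β c => c • β) ∧ s = ((l.sum (fun _ c => c) : ℕ) : ℝ)}

/-- `S_Q = {∑ a_i w_i : 0 ≤ a_i < 1}`. -/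
def box (Q : Set (Fin n → ℝ)) : Set (Fin n → ℝ) :=
  {y | ∃ a : (Fin n → ℤ) →₀ ℝ, (∀ w ∈ a.support, w ∈ rays Q) ∧ (∀ w, 0 ≤ a w ∧ a w < 1) ∧
    y = a.sum (fun w c => c • toR w)}

noncomputable def gammaCone (Q : Set (Fin n → ℝ)) : ℝ :=
  sSup {s | ∃ u ∈ latt (box Q), s = ht Q u - ord Q u}

noncomputable def gammaPoly (P : Set (Fin n → ℝ)) : ℝ :=
  sSup {s | ∃ u ∈ P.extremePoints ℝ, s = gammaCone (vertexCone P u)}

theorem toR_add (a b : Fin n → ℤ) : toR (a + b) = toR a + toR b := by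
  funext i; simp [toR]

theorem rays_mem {Q : Set (Fin n → ℝ)} {w : Fin n → ℤ} (h : w ∈ rays Q) : toR w ∈ Q :=
  h.2.2.subset ⟨1, zero_le_one, (one_smul _ _).symm⟩

def Good (C : Set (Fin n → ℝ)) (φ : (Fin n → ℝ) →ₗ[ℝ] ℝ) : Prop :=
  ∀ w : Fin n → ℤ, toR w ∈ C → w ≠ 0 → 1 ≤ φ (toR w)

theorem toR_sum (l : (Fin n → ℤ) →₀ ℕ) :
    toR (l.sum (fun β c => c • β)) = l.sum (fun β c => (c : ℝ) • toR β) := by
  funext i
  simp [toR, Finsupp.sum, Finset.sum_apply]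

theorem key (Q C : Set (Fin n → ℝ)) (hQC : Q ⊆ C) (h0 : (0 : Fin n → ℝ) ∈ C)
    (hadd : ∀ x ∈ C, ∀ y ∈ C, x + y ∈ C) (hsm : ∀ t : ℝ, 0 ≤ t → ∀ x ∈ C, t • x ∈ C)
    (G : Set (Fin n → ℤ)) (hG : ∀ g ∈ G, toR g ∈ Q ∧ g ≠ 0 ∧ ∃ φ, Good C φ ∧ φ (toR g) < 2)
    (hu : ∀ u : Fin n → ℤ, toR u ∈ C → ∃ φ, Good C φ ∧ ∃ g1 ∈ G, ∃ g2 ∈ G, ∃ g3 ∈ G,
      ∃ a b c : ℕ, u = a • g1 + b • g2 + c • g3 ∧ φ (toR u) ≤ a + b + c) :
    gammaCone Q ≤ 0 := by
  have hH : ∀ g ∈ G, g ∈ hilb Q := by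
    intro g hg
    obtain ⟨h1, h2, φ, h3, h4⟩ := hG g hg
    refine ⟨h1, h2, fun a ha b hb e => ?_⟩
    by_contra hc
    push Not at hc
    have := h3 a (hQC ha) hc.1
    have := h3 b (hQC hb) hc.2
    rw [e, toR_add, map_add] at h4
    linarith
  apply Real.sSup_nonpos
  rintro _ ⟨u, ⟨a, ha1, ha2, ha3⟩, rfl⟩
  have huC : toR u ∈ C := by
    rw [ha3, Finsupp.sum]
    exact Finset.sum_induction _ (· ∈ C) (fun x y hx hy => hadd x hx y hy) h0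
      (fun w hw => hsm _ (ha2 w).1 _ (hQC (rays_mem (ha1 w hw))))
  obtain ⟨φ, hφ, g1, hg1, g2, hg2, g3, hg3, x, y, z, e, hle⟩ := hu u huC
  have hpos : 0 ≤ φ (toR u) := by
    by_cases h : u = 0
    · rw [h, show toR (0 : Fin n → ℤ) = 0 from by funext i; simp [toR], map_zero]
    · linarith [hφ u huC h]
  have h1 : ht Q u ≤ φ (toR u) := by
    refine Real.sSup_le ?_ hpos
    rintro _ ⟨b, hb1, hb2, hb3, rfl⟩
    rw [hb3, Finsupp.sum, Finsupp.sum, map_sum]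
    refine Finset.sum_le_sum fun w hw => ?_
    rw [map_smul, smul_eq_mul]
    have := hφ w (hQC (rays_mem (hb1 w hw))) (hb1 w hw).1
    nlinarith [hb2 w]
  have h2 : ((x + y + z : ℕ) : ℝ) ≤ ord Q u := by
    refine le_csSup ⟨φ (toR u), ?_⟩ ?_
    · rintro _ ⟨l, hl1, hl2, rfl⟩
      rw [hl2, toR_sum, Finsupp.sum, Finsupp.sum, map_sum, Nat.cast_sum]
      refine Finset.sum_le_sum fun w hw => ?_
      rw [map_smul, smul_eq_mul]
      have := hφ w (hQC (hl1 w hw).1) (hl1 w hw).2.1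
      nlinarith [(Nat.cast_nonneg (l w) : (0:ℝ) ≤ l w)]
    · refine ⟨Finsupp.single g1 x + Finsupp.single g2 y + Finsupp.single g3 z, ?_, ?_, ?_⟩
      · intro β hβ
        have := Finsupp.support_add hβ
        rcases Finset.mem_union.1 this with h | h
        · rcases Finset.mem_union.1 (Finsupp.support_add h) with h | h
          · rw [Finset.mem_singleton.1 (Finsupp.support_single_subset h)]; exact hH _ hg1
          · rw [Finset.mem_singleton.1 (Finsupp.support_single_subset h)]; exact hH _ hg2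
        · rw [Finset.mem_singleton.1 (Finsupp.support_single_subset h)]; exact hH _ hg3
      · rw [Finsupp.sum_add_index' (by simp) (by intros; rw [add_smul]),
          Finsupp.sum_add_index' (by simp) (by intros; rw [add_smul])]
        simp [e]
      · rw [Finsupp.sum_add_index' (by simp) (by simp),
          Finsupp.sum_add_index' (by simp) (by simp)]
        simp
  push_cast at h2
  linarith

end Defs

def S : Finset (Fin 3 → ℤ) :=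
  {![0,0,0], ![0,0,1], ![1,0,0], ![1,0,1], ![0,1,0], ![0,1,1], ![1,1,4], ![1,1,5]}

def form (a b c : ℝ) : (Fin 3 → ℝ) →ₗ[ℝ] ℝ :=
  a • LinearMap.proj 0 + b • LinearMap.proj 1 + c • LinearMap.proj 2

theorem form_apply (a b c : ℝ) (x : Fin 3 → ℝ) : form a b c x = a * x 0 + b * x 1 + c * x 2 := by
  simp [form]

theorem ineq {x : Fin 3 → ℝ} (hx : x ∈ poly S) : 0 ≤ x 0 ∧ x 0 ≤ 1 ∧ 0 ≤ x 1 ∧ x 1 ≤ 1 ∧ 0 ≤ x 2 ∧
    4 * (x 0 + x 1 - 1) ≤ x 2 ∧ x 2 ≤ 1 + 4 * x 0 ∧ x 2 ≤ 1 + 4 * x 1 := by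
  refine convexHull_min (t := {x : Fin 3 → ℝ | 0 ≤ x 0 ∧ x 0 ≤ 1 ∧ 0 ≤ x 1 ∧ x 1 ≤ 1 ∧ 0 ≤ x 2 ∧
    4 * (x 0 + x 1 - 1) ≤ x 2 ∧ x 2 ≤ 1 + 4 * x 0 ∧ x 2 ≤ 1 + 4 * x 1}) ?_ ?_ hx
  · rintro _ ⟨w, hw, rfl⟩
    simp only [S, Finset.coe_insert, Finset.coe_singleton, Set.mem_insert_iff,
      Set.mem_singleton_iff] at hw
    rcases hw with rfl | rfl | rfl | rfl | rfl | rfl | rfl | rfl <;> simp [toR] <;> norm_num
  · rintro x ⟨a1, a2, a3, a4, a5, a6, a7, a8⟩ y ⟨b1, b2, b3, b4, b5, b6, b7, b8⟩ s t hs ht hst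
    simp only [Set.mem_ofPred_eq, Pi.add_apply, Pi.smul_apply, smul_eq_mul]
    refine ⟨?_, ?_, ?_, ?_, ?_, ?_, ?_, ?_⟩ <;> nlinarith

theorem memS {w : Fin 3 → ℤ} (h : w ∈ S) : toR w ∈ poly S :=
  subset_convexHull ℝ _ ⟨w, h, rfl⟩

theorem gen_mem (u w g : Fin 3 → ℤ) (h : w ∈ S) (e : g = w - u) :
    toR g ∈ vertexCone (poly S) (toR u) :=
  ⟨1, zero_le_one, toR w, memS h, by funext i; simp [toR, e]⟩

theorem ne0 {w : Fin 3 → ℤ} (h : w ≠ 0) : w 0 ≠ 0 ∨ w 1 ≠ 0 ∨ w 2 ≠ 0 := by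
  by_contra hc
  push Not at hc
  apply h
  funext i; fin_cases i <;> simp [hc.1, hc.2.1, hc.2.2]


theorem cone0 : gammaCone (vertexCone (poly S) (toR ![0,0,0])) ≤ 0 := by
  have p0 : Good {x : Fin 3 → ℝ | 0 ≤ (1) * x 0 + (0) * x 1 + (0) * x 2 ∧ 0 ≤ (0) * x 0 + (1) * x 1 + (0) * x 2 ∧ 0 ≤ (0) * x 0 + (0) * x 1 + (1) * x 2} (form (1) (1) (1)) := by
    rintro w ⟨a0, a1, a2⟩ hw
    have c0 : (0:ℤ) ≤ (1) * w 0 + (0) * w 1 + (0) * w 2 := by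
      simp only [toR] at a0; exact_mod_cast a0
    have c1 : (0:ℤ) ≤ (0) * w 0 + (1) * w 1 + (0) * w 2 := by
      simp only [toR] at a1; exact_mod_cast a1
    have c2 : (0:ℤ) ≤ (0) * w 0 + (0) * w 1 + (1) * w 2 := by
      simp only [toR] at a2; exact_mod_cast a2
    have := ne0 hw
    have : (1:ℤ) ≤ (1) * w 0 + (1) * w 1 + (1) * w 2 := by omega
    rw [form_apply]; simp only [toR]; exact_mod_cast this
  refine key _ {x : Fin 3 → ℝ | 0 ≤ (1) * x 0 + (0) * x 1 + (0) * x 2 ∧ 0 ≤ (0) * x 0 + (1) * x 1 + (0) * x 2 ∧ 0 ≤ (0) * x 0 + (0) * x 1 + (1) * x 2} ?_ (by simp) ?_ ?_ {![0,0,1], ![1,0,0], ![0,1,0]} ?_ ?_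
  · rintro _ ⟨t, ht, x, hx, rfl⟩
    obtain ⟨b1, b2, b3, b4, b5, b6, b7, b8⟩ := ineq hx
    simp [toR]
    refine ⟨?_, ?_, ?_⟩ <;> nlinarith
  · rintro x ⟨a0, a1, a2⟩ y ⟨b0, b1, b2⟩
    simp only [Set.mem_ofPred_eq, Pi.add_apply]
    refine ⟨?_, ?_, ?_⟩ <;> linarith
  · rintro t ht x ⟨a0, a1, a2⟩
    simp only [Set.mem_ofPred_eq, Pi.smul_apply, smul_eq_mul]
    refine ⟨?_, ?_, ?_⟩ <;> nlinarith
  · intro g hg
    simp only [Set.mem_insert_iff, Set.mem_singleton_iff] at hg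
    rcases hg with rfl | rfl | rfl
    · exact ⟨gen_mem _ ![0,0,1] _ (by decide) (by decide), by decide, _, p0, by rw [form_apply]; simp [toR] <;> norm_num⟩
    · exact ⟨gen_mem _ ![1,0,0] _ (by decide) (by decide), by decide, _, p0, by rw [form_apply]; simp [toR] <;> norm_num⟩
    · exact ⟨gen_mem _ ![0,1,0] _ (by decide) (by decide), by decide, _, p0, by rw [form_apply]; simp [toR] <;> norm_num⟩
  · rintro w ⟨a0, a1, a2⟩
    have c0 : (0:ℤ) ≤ (1) * w 0 + (0) * w 1 + (0) * w 2 := by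
      simp only [toR] at a0; exact_mod_cast a0
    have c1 : (0:ℤ) ≤ (0) * w 0 + (1) * w 1 + (0) * w 2 := by
      simp only [toR] at a1; exact_mod_cast a1
    have c2 : (0:ℤ) ≤ (0) * w 0 + (0) * w 1 + (1) * w 2 := by
      simp only [toR] at a2; exact_mod_cast a2
    obtain ⟨n0, e0⟩ := Int.eq_ofNat_of_zero_le (show (0:ℤ) ≤ (0) * w 0 + (0) * w 1 + (1) * w 2 by omega)
    obtain ⟨n1, e1⟩ := Int.eq_ofNat_of_zero_le (show (0:ℤ) ≤ (1) * w 0 + (0) * w 1 + (0) * w 2 by omega)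
    obtain ⟨n2, e2⟩ := Int.eq_ofNat_of_zero_le (show (0:ℤ) ≤ (0) * w 0 + (1) * w 1 + (0) * w 2 by omega)
    refine ⟨_, p0, ![0,0,1], by simp, ![1,0,0], by simp, ![0,1,0], by simp, n0, n1, n2, ?_, ?_⟩
    · funext i; fin_cases i <;> simp <;> omega
    · have : (1) * w 0 + (1) * w 1 + (1) * w 2 ≤ (n0 : ℤ) + n1 + n2 := by omega
      rw [form_apply]; simp only [toR]; exact_mod_cast this

theorem cone1 : gammaCone (vertexCone (poly S) (toR ![0,0,1])) ≤ 0 := by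
  have p0 : Good {x : Fin 3 → ℝ | 0 ≤ (1) * x 0 + (0) * x 1 + (0) * x 2 ∧ 0 ≤ (0) * x 0 + (1) * x 1 + (0) * x 2 ∧ 0 ≤ (4) * x 0 + (0) * x 1 + (-1) * x 2 ∧ 0 ≤ (0) * x 0 + (4) * x 1 + (-1) * x 2} (form (1) (4) (-1)) := by
    rintro w ⟨a0, a1, a2, a3⟩ hw
    have c0 : (0:ℤ) ≤ (1) * w 0 + (0) * w 1 + (0) * w 2 := by
      simp only [toR] at a0; exact_mod_cast a0
    have c1 : (0:ℤ) ≤ (0) * w 0 + (1) * w 1 + (0) * w 2 := by
      simp only [toR] at a1; exact_mod_cast a1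
    have c2 : (0:ℤ) ≤ (4) * w 0 + (0) * w 1 + (-1) * w 2 := by
      simp only [toR] at a2; exact_mod_cast a2
    have c3 : (0:ℤ) ≤ (0) * w 0 + (4) * w 1 + (-1) * w 2 := by
      simp only [toR] at a3; exact_mod_cast a3
    have := ne0 hw
    have : (1:ℤ) ≤ (1) * w 0 + (4) * w 1 + (-1) * w 2 := by omega
    rw [form_apply]; simp only [toR]; exact_mod_cast this
  have p1 : Good {x : Fin 3 → ℝ | 0 ≤ (1) * x 0 + (0) * x 1 + (0) * x 2 ∧ 0 ≤ (0) * x 0 + (1) * x 1 + (0) * x 2 ∧ 0 ≤ (4) * x 0 + (0) * x 1 + (-1) * x 2 ∧ 0 ≤ (0) * x 0 + (4) * x 1 + (-1) * x 2} (form (4) (1) (-1)) := by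
    rintro w ⟨a0, a1, a2, a3⟩ hw
    have c0 : (0:ℤ) ≤ (1) * w 0 + (0) * w 1 + (0) * w 2 := by
      simp only [toR] at a0; exact_mod_cast a0
    have c1 : (0:ℤ) ≤ (0) * w 0 + (1) * w 1 + (0) * w 2 := by
      simp only [toR] at a1; exact_mod_cast a1
    have c2 : (0:ℤ) ≤ (4) * w 0 + (0) * w 1 + (-1) * w 2 := by
      simp only [toR] at a2; exact_mod_cast a2
    have c3 : (0:ℤ) ≤ (0) * w 0 + (4) * w 1 + (-1) * w 2 := by
      simp only [toR] at a3; exact_mod_cast a3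
    have := ne0 hw
    have : (1:ℤ) ≤ (4) * w 0 + (1) * w 1 + (-1) * w 2 := by omega
    rw [form_apply]; simp only [toR]; exact_mod_cast this
  refine key _ {x : Fin 3 → ℝ | 0 ≤ (1) * x 0 + (0) * x 1 + (0) * x 2 ∧ 0 ≤ (0) * x 0 + (1) * x 1 + (0) * x 2 ∧ 0 ≤ (4) * x 0 + (0) * x 1 + (-1) * x 2 ∧ 0 ≤ (0) * x 0 + (4) * x 1 + (-1) * x 2} ?_ (by simp) ?_ ?_ {![0,0,-1], ![1,0,0], ![0,1,0], ![1,1,4]} ?_ ?_
  · rintro _ ⟨t, ht, x, hx, rfl⟩
    obtain ⟨b1, b2, b3, b4, b5, b6, b7, b8⟩ := ineq hx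
    simp [toR]
    refine ⟨?_, ?_, ?_, ?_⟩ <;> nlinarith
  · rintro x ⟨a0, a1, a2, a3⟩ y ⟨b0, b1, b2, b3⟩
    simp only [Set.mem_ofPred_eq, Pi.add_apply]
    refine ⟨?_, ?_, ?_, ?_⟩ <;> linarith
  · rintro t ht x ⟨a0, a1, a2, a3⟩
    simp only [Set.mem_ofPred_eq, Pi.smul_apply, smul_eq_mul]
    refine ⟨?_, ?_, ?_, ?_⟩ <;> nlinarith
  · intro g hg
    simp only [Set.mem_insert_iff, Set.mem_singleton_iff] at hg
    rcases hg with rfl | rfl | rfl | rfl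
    · exact ⟨gen_mem _ ![0,0,0] _ (by decide) (by decide), by decide, _, p0, by rw [form_apply]; simp [toR] <;> norm_num⟩
    · exact ⟨gen_mem _ ![1,0,1] _ (by decide) (by decide), by decide, _, p0, by rw [form_apply]; simp [toR] <;> norm_num⟩
    · exact ⟨gen_mem _ ![0,1,1] _ (by decide) (by decide), by decide, _, p1, by rw [form_apply]; simp [toR] <;> norm_num⟩
    · exact ⟨gen_mem _ ![1,1,5] _ (by decide) (by decide), by decide, _, p0, by rw [form_apply]; simp [toR] <;> norm_num⟩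
  · rintro w ⟨a0, a1, a2, a3⟩
    have c0 : (0:ℤ) ≤ (1) * w 0 + (0) * w 1 + (0) * w 2 := by
      simp only [toR] at a0; exact_mod_cast a0
    have c1 : (0:ℤ) ≤ (0) * w 0 + (1) * w 1 + (0) * w 2 := by
      simp only [toR] at a1; exact_mod_cast a1
    have c2 : (0:ℤ) ≤ (4) * w 0 + (0) * w 1 + (-1) * w 2 := by
      simp only [toR] at a2; exact_mod_cast a2
    have c3 : (0:ℤ) ≤ (0) * w 0 + (4) * w 1 + (-1) * w 2 := by
      simp only [toR] at a3; exact_mod_cast a3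
    by_cases hxy : (0) * w 0 + (1) * w 1 + (0) * w 2 ≤ (1) * w 0 + (0) * w 1 + (0) * w 2
    · obtain ⟨n0, e0⟩ := Int.eq_ofNat_of_zero_le (show (0:ℤ) ≤ (0) * w 0 + (4) * w 1 + (-1) * w 2 by omega)
      obtain ⟨n1, e1⟩ := Int.eq_ofNat_of_zero_le (show (0:ℤ) ≤ (1) * w 0 + (-1) * w 1 + (0) * w 2 by omega)
      obtain ⟨n2, e2⟩ := Int.eq_ofNat_of_zero_le (show (0:ℤ) ≤ (0) * w 0 + (1) * w 1 + (0) * w 2 by omega)
      refine ⟨_, p0, ![0,0,-1], by simp, ![1,0,0], by simp, ![1,1,4], by simp, n0, n1, n2, ?_, ?_⟩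
      · funext i; fin_cases i <;> simp <;> omega
      · have : (1) * w 0 + (4) * w 1 + (-1) * w 2 ≤ (n0 : ℤ) + n1 + n2 := by omega
        rw [form_apply]; simp only [toR]; exact_mod_cast this
    · obtain ⟨n0, e0⟩ := Int.eq_ofNat_of_zero_le (show (0:ℤ) ≤ (4) * w 0 + (0) * w 1 + (-1) * w 2 by omega)
      obtain ⟨n1, e1⟩ := Int.eq_ofNat_of_zero_le (show (0:ℤ) ≤ (-1) * w 0 + (1) * w 1 + (0) * w 2 by omega)
      obtain ⟨n2, e2⟩ := Int.eq_ofNat_of_zero_le (show (0:ℤ) ≤ (1) * w 0 + (0) * w 1 + (0) * w 2 by omega)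
      refine ⟨_, p1, ![0,0,-1], by simp, ![0,1,0], by simp, ![1,1,4], by simp, n0, n1, n2, ?_, ?_⟩
      · funext i; fin_cases i <;> simp <;> omega
      · have : (4) * w 0 + (1) * w 1 + (-1) * w 2 ≤ (n0 : ℤ) + n1 + n2 := by omega
        rw [form_apply]; simp only [toR]; exact_mod_cast this

theorem cone2 : gammaCone (vertexCone (poly S) (toR ![1,0,0])) ≤ 0 := by
  have p0 : Good {x : Fin 3 → ℝ | 0 ≤ (-1) * x 0 + (0) * x 1 + (0) * x 2 ∧ 0 ≤ (0) * x 0 + (1) * x 1 + (0) * x 2 ∧ 0 ≤ (-4) * x 0 + (-4) * x 1 + (1) * x 2 ∧ 0 ≤ (0) * x 0 + (0) * x 1 + (1) * x 2} (form (-1) (0) (1)) := by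
    rintro w ⟨a0, a1, a2, a3⟩ hw
    have c0 : (0:ℤ) ≤ (-1) * w 0 + (0) * w 1 + (0) * w 2 := by
      simp only [toR] at a0; exact_mod_cast a0
    have c1 : (0:ℤ) ≤ (0) * w 0 + (1) * w 1 + (0) * w 2 := by
      simp only [toR] at a1; exact_mod_cast a1
    have c2 : (0:ℤ) ≤ (-4) * w 0 + (-4) * w 1 + (1) * w 2 := by
      simp only [toR] at a2; exact_mod_cast a2
    have c3 : (0:ℤ) ≤ (0) * w 0 + (0) * w 1 + (1) * w 2 := by
      simp only [toR] at a3; exact_mod_cast a3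
    have := ne0 hw
    have : (1:ℤ) ≤ (-1) * w 0 + (0) * w 1 + (1) * w 2 := by omega
    rw [form_apply]; simp only [toR]; exact_mod_cast this
  have p1 : Good {x : Fin 3 → ℝ | 0 ≤ (-1) * x 0 + (0) * x 1 + (0) * x 2 ∧ 0 ≤ (0) * x 0 + (1) * x 1 + (0) * x 2 ∧ 0 ≤ (-4) * x 0 + (-4) * x 1 + (1) * x 2 ∧ 0 ≤ (0) * x 0 + (0) * x 1 + (1) * x 2} (form (-4) (-3) (1)) := by
    rintro w ⟨a0, a1, a2, a3⟩ hw
    have c0 : (0:ℤ) ≤ (-1) * w 0 + (0) * w 1 + (0) * w 2 := by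
      simp only [toR] at a0; exact_mod_cast a0
    have c1 : (0:ℤ) ≤ (0) * w 0 + (1) * w 1 + (0) * w 2 := by
      simp only [toR] at a1; exact_mod_cast a1
    have c2 : (0:ℤ) ≤ (-4) * w 0 + (-4) * w 1 + (1) * w 2 := by
      simp only [toR] at a2; exact_mod_cast a2
    have c3 : (0:ℤ) ≤ (0) * w 0 + (0) * w 1 + (1) * w 2 := by
      simp only [toR] at a3; exact_mod_cast a3
    have := ne0 hw
    have : (1:ℤ) ≤ (-4) * w 0 + (-3) * w 1 + (1) * w 2 := by omega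
    rw [form_apply]; simp only [toR]; exact_mod_cast this
  refine key _ {x : Fin 3 → ℝ | 0 ≤ (-1) * x 0 + (0) * x 1 + (0) * x 2 ∧ 0 ≤ (0) * x 0 + (1) * x 1 + (0) * x 2 ∧ 0 ≤ (-4) * x 0 + (-4) * x 1 + (1) * x 2 ∧ 0 ≤ (0) * x 0 + (0) * x 1 + (1) * x 2} ?_ (by simp) ?_ ?_ {![0,0,1], ![-1,0,0], ![0,1,4], ![-1,1,0]} ?_ ?_
  · rintro _ ⟨t, ht, x, hx, rfl⟩
    obtain ⟨b1, b2, b3, b4, b5, b6, b7, b8⟩ := ineq hx
    simp [toR]
    refine ⟨?_, ?_, ?_, ?_⟩ <;> nlinarith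
  · rintro x ⟨a0, a1, a2, a3⟩ y ⟨b0, b1, b2, b3⟩
    simp only [Set.mem_ofPred_eq, Pi.add_apply]
    refine ⟨?_, ?_, ?_, ?_⟩ <;> linarith
  · rintro t ht x ⟨a0, a1, a2, a3⟩
    simp only [Set.mem_ofPred_eq, Pi.smul_apply, smul_eq_mul]
    refine ⟨?_, ?_, ?_, ?_⟩ <;> nlinarith
  · intro g hg
    simp only [Set.mem_insert_iff, Set.mem_singleton_iff] at hg
    rcases hg with rfl | rfl | rfl | rfl
    · exact ⟨gen_mem _ ![1,0,1] _ (by decide) (by decide), by decide, _, p0, by rw [form_apply]; simp [toR] <;> norm_num⟩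
    · exact ⟨gen_mem _ ![0,0,0] _ (by decide) (by decide), by decide, _, p0, by rw [form_apply]; simp [toR] <;> norm_num⟩
    · exact ⟨gen_mem _ ![1,1,4] _ (by decide) (by decide), by decide, _, p1, by rw [form_apply]; simp [toR] <;> norm_num⟩
    · exact ⟨gen_mem _ ![0,1,0] _ (by decide) (by decide), by decide, _, p0, by rw [form_apply]; simp [toR] <;> norm_num⟩
  · rintro w ⟨a0, a1, a2, a3⟩
    have c0 : (0:ℤ) ≤ (-1) * w 0 + (0) * w 1 + (0) * w 2 := by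
      simp only [toR] at a0; exact_mod_cast a0
    have c1 : (0:ℤ) ≤ (0) * w 0 + (1) * w 1 + (0) * w 2 := by
      simp only [toR] at a1; exact_mod_cast a1
    have c2 : (0:ℤ) ≤ (-4) * w 0 + (-4) * w 1 + (1) * w 2 := by
      simp only [toR] at a2; exact_mod_cast a2
    have c3 : (0:ℤ) ≤ (0) * w 0 + (0) * w 1 + (1) * w 2 := by
      simp only [toR] at a3; exact_mod_cast a3
    by_cases hxy : (0) * w 0 + (1) * w 1 + (0) * w 2 ≤ (-1) * w 0 + (0) * w 1 + (0) * w 2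
    · obtain ⟨n0, e0⟩ := Int.eq_ofNat_of_zero_le (show (0:ℤ) ≤ (0) * w 0 + (0) * w 1 + (1) * w 2 by omega)
      obtain ⟨n1, e1⟩ := Int.eq_ofNat_of_zero_le (show (0:ℤ) ≤ (-1) * w 0 + (-1) * w 1 + (0) * w 2 by omega)
      obtain ⟨n2, e2⟩ := Int.eq_ofNat_of_zero_le (show (0:ℤ) ≤ (0) * w 0 + (1) * w 1 + (0) * w 2 by omega)
      refine ⟨_, p0, ![0,0,1], by simp, ![-1,0,0], by simp, ![-1,1,0], by simp, n0, n1, n2, ?_, ?_⟩
      · funext i; fin_cases i <;> simp <;> omega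
      · have : (-1) * w 0 + (0) * w 1 + (1) * w 2 ≤ (n0 : ℤ) + n1 + n2 := by omega
        rw [form_apply]; simp only [toR]; exact_mod_cast this
    · obtain ⟨n0, e0⟩ := Int.eq_ofNat_of_zero_le (show (0:ℤ) ≤ (-4) * w 0 + (-4) * w 1 + (1) * w 2 by omega)
      obtain ⟨n1, e1⟩ := Int.eq_ofNat_of_zero_le (show (0:ℤ) ≤ (1) * w 0 + (1) * w 1 + (0) * w 2 by omega)
      obtain ⟨n2, e2⟩ := Int.eq_ofNat_of_zero_le (show (0:ℤ) ≤ (-1) * w 0 + (0) * w 1 + (0) * w 2 by omega)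
      refine ⟨_, p1, ![0,0,1], by simp, ![0,1,4], by simp, ![-1,1,0], by simp, n0, n1, n2, ?_, ?_⟩
      · funext i; fin_cases i <;> simp <;> omega
      · have : (-4) * w 0 + (-3) * w 1 + (1) * w 2 ≤ (n0 : ℤ) + n1 + n2 := by omega
        rw [form_apply]; simp only [toR]; exact_mod_cast this

theorem cone3 : gammaCone (vertexCone (poly S) (toR ![1,0,1])) ≤ 0 := by
  have p0 : Good {x : Fin 3 → ℝ | 0 ≤ (-1) * x 0 + (0) * x 1 + (0) * x 2 ∧ 0 ≤ (0) * x 0 + (1) * x 1 + (0) * x 2 ∧ 0 ≤ (0) * x 0 + (4) * x 1 + (-1) * x 2} (form (-1) (5) (-1)) := by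
    rintro w ⟨a0, a1, a2⟩ hw
    have c0 : (0:ℤ) ≤ (-1) * w 0 + (0) * w 1 + (0) * w 2 := by
      simp only [toR] at a0; exact_mod_cast a0
    have c1 : (0:ℤ) ≤ (0) * w 0 + (1) * w 1 + (0) * w 2 := by
      simp only [toR] at a1; exact_mod_cast a1
    have c2 : (0:ℤ) ≤ (0) * w 0 + (4) * w 1 + (-1) * w 2 := by
      simp only [toR] at a2; exact_mod_cast a2
    have := ne0 hw
    have : (1:ℤ) ≤ (-1) * w 0 + (5) * w 1 + (-1) * w 2 := by omega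
    rw [form_apply]; simp only [toR]; exact_mod_cast this
  refine key _ {x : Fin 3 → ℝ | 0 ≤ (-1) * x 0 + (0) * x 1 + (0) * x 2 ∧ 0 ≤ (0) * x 0 + (1) * x 1 + (0) * x 2 ∧ 0 ≤ (0) * x 0 + (4) * x 1 + (-1) * x 2} ?_ (by simp) ?_ ?_ {![0,0,-1], ![-1,0,0], ![0,1,4]} ?_ ?_
  · rintro _ ⟨t, ht, x, hx, rfl⟩
    obtain ⟨b1, b2, b3, b4, b5, b6, b7, b8⟩ := ineq hx
    simp [toR]
    refine ⟨?_, ?_, ?_⟩ <;> nlinarith
  · rintro x ⟨a0, a1, a2⟩ y ⟨b0, b1, b2⟩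
    simp only [Set.mem_ofPred_eq, Pi.add_apply]
    refine ⟨?_, ?_, ?_⟩ <;> linarith
  · rintro t ht x ⟨a0, a1, a2⟩
    simp only [Set.mem_ofPred_eq, Pi.smul_apply, smul_eq_mul]
    refine ⟨?_, ?_, ?_⟩ <;> nlinarith
  · intro g hg
    simp only [Set.mem_insert_iff, Set.mem_singleton_iff] at hg
    rcases hg with rfl | rfl | rfl
    · exact ⟨gen_mem _ ![1,0,0] _ (by decide) (by decide), by decide, _, p0, by rw [form_apply]; simp [toR] <;> norm_num⟩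
    · exact ⟨gen_mem _ ![0,0,1] _ (by decide) (by decide), by decide, _, p0, by rw [form_apply]; simp [toR] <;> norm_num⟩
    · exact ⟨gen_mem _ ![1,1,5] _ (by decide) (by decide), by decide, _, p0, by rw [form_apply]; simp [toR] <;> norm_num⟩
  · rintro w ⟨a0, a1, a2⟩
    have c0 : (0:ℤ) ≤ (-1) * w 0 + (0) * w 1 + (0) * w 2 := by
      simp only [toR] at a0; exact_mod_cast a0
    have c1 : (0:ℤ) ≤ (0) * w 0 + (1) * w 1 + (0) * w 2 := by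
      simp only [toR] at a1; exact_mod_cast a1
    have c2 : (0:ℤ) ≤ (0) * w 0 + (4) * w 1 + (-1) * w 2 := by
      simp only [toR] at a2; exact_mod_cast a2
    obtain ⟨n0, e0⟩ := Int.eq_ofNat_of_zero_le (show (0:ℤ) ≤ (0) * w 0 + (4) * w 1 + (-1) * w 2 by omega)
    obtain ⟨n1, e1⟩ := Int.eq_ofNat_of_zero_le (show (0:ℤ) ≤ (-1) * w 0 + (0) * w 1 + (0) * w 2 by omega)
    obtain ⟨n2, e2⟩ := Int.eq_ofNat_of_zero_le (show (0:ℤ) ≤ (0) * w 0 + (1) * w 1 + (0) * w 2 by omega)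
    refine ⟨_, p0, ![0,0,-1], by simp, ![-1,0,0], by simp, ![0,1,4], by simp, n0, n1, n2, ?_, ?_⟩
    · funext i; fin_cases i <;> simp <;> omega
    · have : (-1) * w 0 + (5) * w 1 + (-1) * w 2 ≤ (n0 : ℤ) + n1 + n2 := by omega
      rw [form_apply]; simp only [toR]; exact_mod_cast this

theorem cone4 : gammaCone (vertexCone (poly S) (toR ![0,1,0])) ≤ 0 := by
  have p0 : Good {x : Fin 3 → ℝ | 0 ≤ (1) * x 0 + (0) * x 1 + (0) * x 2 ∧ 0 ≤ (0) * x 0 + (-1) * x 1 + (0) * x 2 ∧ 0 ≤ (0) * x 0 + (0) * x 1 + (1) * x 2 ∧ 0 ≤ (-4) * x 0 + (-4) * x 1 + (1) * x 2} (form (-3) (-4) (1)) := by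
    rintro w ⟨a0, a1, a2, a3⟩ hw
    have c0 : (0:ℤ) ≤ (1) * w 0 + (0) * w 1 + (0) * w 2 := by
      simp only [toR] at a0; exact_mod_cast a0
    have c1 : (0:ℤ) ≤ (0) * w 0 + (-1) * w 1 + (0) * w 2 := by
      simp only [toR] at a1; exact_mod_cast a1
    have c2 : (0:ℤ) ≤ (0) * w 0 + (0) * w 1 + (1) * w 2 := by
      simp only [toR] at a2; exact_mod_cast a2
    have c3 : (0:ℤ) ≤ (-4) * w 0 + (-4) * w 1 + (1) * w 2 := by
      simp only [toR] at a3; exact_mod_cast a3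
    have := ne0 hw
    have : (1:ℤ) ≤ (-3) * w 0 + (-4) * w 1 + (1) * w 2 := by omega
    rw [form_apply]; simp only [toR]; exact_mod_cast this
  have p1 : Good {x : Fin 3 → ℝ | 0 ≤ (1) * x 0 + (0) * x 1 + (0) * x 2 ∧ 0 ≤ (0) * x 0 + (-1) * x 1 + (0) * x 2 ∧ 0 ≤ (0) * x 0 + (0) * x 1 + (1) * x 2 ∧ 0 ≤ (-4) * x 0 + (-4) * x 1 + (1) * x 2} (form (0) (-1) (1)) := by
    rintro w ⟨a0, a1, a2, a3⟩ hw
    have c0 : (0:ℤ) ≤ (1) * w 0 + (0) * w 1 + (0) * w 2 := by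
      simp only [toR] at a0; exact_mod_cast a0
    have c1 : (0:ℤ) ≤ (0) * w 0 + (-1) * w 1 + (0) * w 2 := by
      simp only [toR] at a1; exact_mod_cast a1
    have c2 : (0:ℤ) ≤ (0) * w 0 + (0) * w 1 + (1) * w 2 := by
      simp only [toR] at a2; exact_mod_cast a2
    have c3 : (0:ℤ) ≤ (-4) * w 0 + (-4) * w 1 + (1) * w 2 := by
      simp only [toR] at a3; exact_mod_cast a3
    have := ne0 hw
    have : (1:ℤ) ≤ (0) * w 0 + (-1) * w 1 + (1) * w 2 := by omega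
    rw [form_apply]; simp only [toR]; exact_mod_cast this
  refine key _ {x : Fin 3 → ℝ | 0 ≤ (1) * x 0 + (0) * x 1 + (0) * x 2 ∧ 0 ≤ (0) * x 0 + (-1) * x 1 + (0) * x 2 ∧ 0 ≤ (0) * x 0 + (0) * x 1 + (1) * x 2 ∧ 0 ≤ (-4) * x 0 + (-4) * x 1 + (1) * x 2} ?_ (by simp) ?_ ?_ {![0,0,1], ![1,0,4], ![0,-1,0], ![1,-1,0]} ?_ ?_
  · rintro _ ⟨t, ht, x, hx, rfl⟩
    obtain ⟨b1, b2, b3, b4, b5, b6, b7, b8⟩ := ineq hx
    simp [toR]
    refine ⟨?_, ?_, ?_, ?_⟩ <;> nlinarith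
  · rintro x ⟨a0, a1, a2, a3⟩ y ⟨b0, b1, b2, b3⟩
    simp only [Set.mem_ofPred_eq, Pi.add_apply]
    refine ⟨?_, ?_, ?_, ?_⟩ <;> linarith
  · rintro t ht x ⟨a0, a1, a2, a3⟩
    simp only [Set.mem_ofPred_eq, Pi.smul_apply, smul_eq_mul]
    refine ⟨?_, ?_, ?_, ?_⟩ <;> nlinarith
  · intro g hg
    simp only [Set.mem_insert_iff, Set.mem_singleton_iff] at hg
    rcases hg with rfl | rfl | rfl | rfl
    · exact ⟨gen_mem _ ![0,1,1] _ (by decide) (by decide), by decide, _, p0, by rw [form_apply]; simp [toR] <;> norm_num⟩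
    · exact ⟨gen_mem _ ![1,1,4] _ (by decide) (by decide), by decide, _, p0, by rw [form_apply]; simp [toR] <;> norm_num⟩
    · exact ⟨gen_mem _ ![0,0,0] _ (by decide) (by decide), by decide, _, p1, by rw [form_apply]; simp [toR] <;> norm_num⟩
    · exact ⟨gen_mem _ ![1,0,0] _ (by decide) (by decide), by decide, _, p0, by rw [form_apply]; simp [toR] <;> norm_num⟩
  · rintro w ⟨a0, a1, a2, a3⟩
    have c0 : (0:ℤ) ≤ (1) * w 0 + (0) * w 1 + (0) * w 2 := by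
      simp only [toR] at a0; exact_mod_cast a0
    have c1 : (0:ℤ) ≤ (0) * w 0 + (-1) * w 1 + (0) * w 2 := by
      simp only [toR] at a1; exact_mod_cast a1
    have c2 : (0:ℤ) ≤ (0) * w 0 + (0) * w 1 + (1) * w 2 := by
      simp only [toR] at a2; exact_mod_cast a2
    have c3 : (0:ℤ) ≤ (-4) * w 0 + (-4) * w 1 + (1) * w 2 := by
      simp only [toR] at a3; exact_mod_cast a3
    by_cases hxy : (0) * w 0 + (-1) * w 1 + (0) * w 2 ≤ (1) * w 0 + (0) * w 1 + (0) * w 2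
    · obtain ⟨n0, e0⟩ := Int.eq_ofNat_of_zero_le (show (0:ℤ) ≤ (-4) * w 0 + (-4) * w 1 + (1) * w 2 by omega)
      obtain ⟨n1, e1⟩ := Int.eq_ofNat_of_zero_le (show (0:ℤ) ≤ (1) * w 0 + (1) * w 1 + (0) * w 2 by omega)
      obtain ⟨n2, e2⟩ := Int.eq_ofNat_of_zero_le (show (0:ℤ) ≤ (0) * w 0 + (-1) * w 1 + (0) * w 2 by omega)
      refine ⟨_, p0, ![0,0,1], by simp, ![1,0,4], by simp, ![1,-1,0], by simp, n0, n1, n2, ?_, ?_⟩
      · funext i; fin_cases i <;> simp <;> omega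
      · have : (-3) * w 0 + (-4) * w 1 + (1) * w 2 ≤ (n0 : ℤ) + n1 + n2 := by omega
        rw [form_apply]; simp only [toR]; exact_mod_cast this
    · obtain ⟨n0, e0⟩ := Int.eq_ofNat_of_zero_le (show (0:ℤ) ≤ (0) * w 0 + (0) * w 1 + (1) * w 2 by omega)
      obtain ⟨n1, e1⟩ := Int.eq_ofNat_of_zero_le (show (0:ℤ) ≤ (-1) * w 0 + (-1) * w 1 + (0) * w 2 by omega)
      obtain ⟨n2, e2⟩ := Int.eq_ofNat_of_zero_le (show (0:ℤ) ≤ (1) * w 0 + (0) * w 1 + (0) * w 2 by omega)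
      refine ⟨_, p1, ![0,0,1], by simp, ![0,-1,0], by simp, ![1,-1,0], by simp, n0, n1, n2, ?_, ?_⟩
      · funext i; fin_cases i <;> simp <;> omega
      · have : (0) * w 0 + (-1) * w 1 + (1) * w 2 ≤ (n0 : ℤ) + n1 + n2 := by omega
        rw [form_apply]; simp only [toR]; exact_mod_cast this

theorem cone5 : gammaCone (vertexCone (poly S) (toR ![0,1,1])) ≤ 0 := by
  have p0 : Good {x : Fin 3 → ℝ | 0 ≤ (1) * x 0 + (0) * x 1 + (0) * x 2 ∧ 0 ≤ (0) * x 0 + (-1) * x 1 + (0) * x 2 ∧ 0 ≤ (4) * x 0 + (0) * x 1 + (-1) * x 2} (form (5) (-1) (-1)) := by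
    rintro w ⟨a0, a1, a2⟩ hw
    have c0 : (0:ℤ) ≤ (1) * w 0 + (0) * w 1 + (0) * w 2 := by
      simp only [toR] at a0; exact_mod_cast a0
    have c1 : (0:ℤ) ≤ (0) * w 0 + (-1) * w 1 + (0) * w 2 := by
      simp only [toR] at a1; exact_mod_cast a1
    have c2 : (0:ℤ) ≤ (4) * w 0 + (0) * w 1 + (-1) * w 2 := by
      simp only [toR] at a2; exact_mod_cast a2
    have := ne0 hw
    have : (1:ℤ) ≤ (5) * w 0 + (-1) * w 1 + (-1) * w 2 := by omega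
    rw [form_apply]; simp only [toR]; exact_mod_cast this
  refine key _ {x : Fin 3 → ℝ | 0 ≤ (1) * x 0 + (0) * x 1 + (0) * x 2 ∧ 0 ≤ (0) * x 0 + (-1) * x 1 + (0) * x 2 ∧ 0 ≤ (4) * x 0 + (0) * x 1 + (-1) * x 2} ?_ (by simp) ?_ ?_ {![0,0,-1], ![1,0,4], ![0,-1,0]} ?_ ?_
  · rintro _ ⟨t, ht, x, hx, rfl⟩
    obtain ⟨b1, b2, b3, b4, b5, b6, b7, b8⟩ := ineq hx
    simp [toR]
    refine ⟨?_, ?_, ?_⟩ <;> nlinarith
  · rintro x ⟨a0, a1, a2⟩ y ⟨b0, b1, b2⟩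
    simp only [Set.mem_ofPred_eq, Pi.add_apply]
    refine ⟨?_, ?_, ?_⟩ <;> linarith
  · rintro t ht x ⟨a0, a1, a2⟩
    simp only [Set.mem_ofPred_eq, Pi.smul_apply, smul_eq_mul]
    refine ⟨?_, ?_, ?_⟩ <;> nlinarith
  · intro g hg
    simp only [Set.mem_insert_iff, Set.mem_singleton_iff] at hg
    rcases hg with rfl | rfl | rfl
    · exact ⟨gen_mem _ ![0,1,0] _ (by decide) (by decide), by decide, _, p0, by rw [form_apply]; simp [toR] <;> norm_num⟩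
    · exact ⟨gen_mem _ ![1,1,5] _ (by decide) (by decide), by decide, _, p0, by rw [form_apply]; simp [toR] <;> norm_num⟩
    · exact ⟨gen_mem _ ![0,0,1] _ (by decide) (by decide), by decide, _, p0, by rw [form_apply]; simp [toR] <;> norm_num⟩
  · rintro w ⟨a0, a1, a2⟩
    have c0 : (0:ℤ) ≤ (1) * w 0 + (0) * w 1 + (0) * w 2 := by
      simp only [toR] at a0; exact_mod_cast a0
    have c1 : (0:ℤ) ≤ (0) * w 0 + (-1) * w 1 + (0) * w 2 := by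
      simp only [toR] at a1; exact_mod_cast a1
    have c2 : (0:ℤ) ≤ (4) * w 0 + (0) * w 1 + (-1) * w 2 := by
      simp only [toR] at a2; exact_mod_cast a2
    obtain ⟨n0, e0⟩ := Int.eq_ofNat_of_zero_le (show (0:ℤ) ≤ (4) * w 0 + (0) * w 1 + (-1) * w 2 by omega)
    obtain ⟨n1, e1⟩ := Int.eq_ofNat_of_zero_le (show (0:ℤ) ≤ (1) * w 0 + (0) * w 1 + (0) * w 2 by omega)
    obtain ⟨n2, e2⟩ := Int.eq_ofNat_of_zero_le (show (0:ℤ) ≤ (0) * w 0 + (-1) * w 1 + (0) * w 2 by omega)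
    refine ⟨_, p0, ![0,0,-1], by simp, ![1,0,4], by simp, ![0,-1,0], by simp, n0, n1, n2, ?_, ?_⟩
    · funext i; fin_cases i <;> simp <;> omega
    · have : (5) * w 0 + (-1) * w 1 + (-1) * w 2 ≤ (n0 : ℤ) + n1 + n2 := by omega
      rw [form_apply]; simp only [toR]; exact_mod_cast this

theorem cone6 : gammaCone (vertexCone (poly S) (toR ![1,1,4])) ≤ 0 := by
  have p0 : Good {x : Fin 3 → ℝ | 0 ≤ (-1) * x 0 + (0) * x 1 + (0) * x 2 ∧ 0 ≤ (0) * x 0 + (-1) * x 1 + (0) * x 2 ∧ 0 ≤ (-4) * x 0 + (-4) * x 1 + (1) * x 2} (form (-5) (-5) (1)) := by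
    rintro w ⟨a0, a1, a2⟩ hw
    have c0 : (0:ℤ) ≤ (-1) * w 0 + (0) * w 1 + (0) * w 2 := by
      simp only [toR] at a0; exact_mod_cast a0
    have c1 : (0:ℤ) ≤ (0) * w 0 + (-1) * w 1 + (0) * w 2 := by
      simp only [toR] at a1; exact_mod_cast a1
    have c2 : (0:ℤ) ≤ (-4) * w 0 + (-4) * w 1 + (1) * w 2 := by
      simp only [toR] at a2; exact_mod_cast a2
    have := ne0 hw
    have : (1:ℤ) ≤ (-5) * w 0 + (-5) * w 1 + (1) * w 2 := by omega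
    rw [form_apply]; simp only [toR]; exact_mod_cast this
  refine key _ {x : Fin 3 → ℝ | 0 ≤ (-1) * x 0 + (0) * x 1 + (0) * x 2 ∧ 0 ≤ (0) * x 0 + (-1) * x 1 + (0) * x 2 ∧ 0 ≤ (-4) * x 0 + (-4) * x 1 + (1) * x 2} ?_ (by simp) ?_ ?_ {![0,0,1], ![-1,0,-4], ![0,-1,-4]} ?_ ?_
  · rintro _ ⟨t, ht, x, hx, rfl⟩
    obtain ⟨b1, b2, b3, b4, b5, b6, b7, b8⟩ := ineq hx
    simp [toR]
    refine ⟨?_, ?_, ?_⟩ <;> nlinarith
  · rintro x ⟨a0, a1, a2⟩ y ⟨b0, b1, b2⟩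
    simp only [Set.mem_ofPred_eq, Pi.add_apply]
    refine ⟨?_, ?_, ?_⟩ <;> linarith
  · rintro t ht x ⟨a0, a1, a2⟩
    simp only [Set.mem_ofPred_eq, Pi.smul_apply, smul_eq_mul]
    refine ⟨?_, ?_, ?_⟩ <;> nlinarith
  · intro g hg
    simp only [Set.mem_insert_iff, Set.mem_singleton_iff] at hg
    rcases hg with rfl | rfl | rfl
    · exact ⟨gen_mem _ ![1,1,5] _ (by decide) (by decide), by decide, _, p0, by rw [form_apply]; simp [toR] <;> norm_num⟩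
    · exact ⟨gen_mem _ ![0,1,0] _ (by decide) (by decide), by decide, _, p0, by rw [form_apply]; simp [toR] <;> norm_num⟩
    · exact ⟨gen_mem _ ![1,0,0] _ (by decide) (by decide), by decide, _, p0, by rw [form_apply]; simp [toR] <;> norm_num⟩
  · rintro w ⟨a0, a1, a2⟩
    have c0 : (0:ℤ) ≤ (-1) * w 0 + (0) * w 1 + (0) * w 2 := by
      simp only [toR] at a0; exact_mod_cast a0
    have c1 : (0:ℤ) ≤ (0) * w 0 + (-1) * w 1 + (0) * w 2 := by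
      simp only [toR] at a1; exact_mod_cast a1
    have c2 : (0:ℤ) ≤ (-4) * w 0 + (-4) * w 1 + (1) * w 2 := by
      simp only [toR] at a2; exact_mod_cast a2
    obtain ⟨n0, e0⟩ := Int.eq_ofNat_of_zero_le (show (0:ℤ) ≤ (-4) * w 0 + (-4) * w 1 + (1) * w 2 by omega)
    obtain ⟨n1, e1⟩ := Int.eq_ofNat_of_zero_le (show (0:ℤ) ≤ (-1) * w 0 + (0) * w 1 + (0) * w 2 by omega)
    obtain ⟨n2, e2⟩ := Int.eq_ofNat_of_zero_le (show (0:ℤ) ≤ (0) * w 0 + (-1) * w 1 + (0) * w 2 by omega)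
    refine ⟨_, p0, ![0,0,1], by simp, ![-1,0,-4], by simp, ![0,-1,-4], by simp, n0, n1, n2, ?_, ?_⟩
    · funext i; fin_cases i <;> simp <;> omega
    · have : (-5) * w 0 + (-5) * w 1 + (1) * w 2 ≤ (n0 : ℤ) + n1 + n2 := by omega
      rw [form_apply]; simp only [toR]; exact_mod_cast this

theorem cone7 : gammaCone (vertexCone (poly S) (toR ![1,1,5])) ≤ 0 := by
  have p0 : Good {x : Fin 3 → ℝ | 0 ≤ (-1) * x 0 + (0) * x 1 + (0) * x 2 ∧ 0 ≤ (0) * x 0 + (-1) * x 1 + (0) * x 2 ∧ 0 ≤ (0) * x 0 + (4) * x 1 + (-1) * x 2 ∧ 0 ≤ (4) * x 0 + (0) * x 1 + (-1) * x 2} (form (3) (0) (-1)) := by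
    rintro w ⟨a0, a1, a2, a3⟩ hw
    have c0 : (0:ℤ) ≤ (-1) * w 0 + (0) * w 1 + (0) * w 2 := by
      simp only [toR] at a0; exact_mod_cast a0
    have c1 : (0:ℤ) ≤ (0) * w 0 + (-1) * w 1 + (0) * w 2 := by
      simp only [toR] at a1; exact_mod_cast a1
    have c2 : (0:ℤ) ≤ (0) * w 0 + (4) * w 1 + (-1) * w 2 := by
      simp only [toR] at a2; exact_mod_cast a2
    have c3 : (0:ℤ) ≤ (4) * w 0 + (0) * w 1 + (-1) * w 2 := by
      simp only [toR] at a3; exact_mod_cast a3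
    have := ne0 hw
    have : (1:ℤ) ≤ (3) * w 0 + (0) * w 1 + (-1) * w 2 := by omega
    rw [form_apply]; simp only [toR]; exact_mod_cast this
  have p1 : Good {x : Fin 3 → ℝ | 0 ≤ (-1) * x 0 + (0) * x 1 + (0) * x 2 ∧ 0 ≤ (0) * x 0 + (-1) * x 1 + (0) * x 2 ∧ 0 ≤ (0) * x 0 + (4) * x 1 + (-1) * x 2 ∧ 0 ≤ (4) * x 0 + (0) * x 1 + (-1) * x 2} (form (0) (3) (-1)) := by
    rintro w ⟨a0, a1, a2, a3⟩ hw
    have c0 : (0:ℤ) ≤ (-1) * w 0 + (0) * w 1 + (0) * w 2 := by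
      simp only [toR] at a0; exact_mod_cast a0
    have c1 : (0:ℤ) ≤ (0) * w 0 + (-1) * w 1 + (0) * w 2 := by
      simp only [toR] at a1; exact_mod_cast a1
    have c2 : (0:ℤ) ≤ (0) * w 0 + (4) * w 1 + (-1) * w 2 := by
      simp only [toR] at a2; exact_mod_cast a2
    have c3 : (0:ℤ) ≤ (4) * w 0 + (0) * w 1 + (-1) * w 2 := by
      simp only [toR] at a3; exact_mod_cast a3
    have := ne0 hw
    have : (1:ℤ) ≤ (0) * w 0 + (3) * w 1 + (-1) * w 2 := by omega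
    rw [form_apply]; simp only [toR]; exact_mod_cast this
  refine key _ {x : Fin 3 → ℝ | 0 ≤ (-1) * x 0 + (0) * x 1 + (0) * x 2 ∧ 0 ≤ (0) * x 0 + (-1) * x 1 + (0) * x 2 ∧ 0 ≤ (0) * x 0 + (4) * x 1 + (-1) * x 2 ∧ 0 ≤ (4) * x 0 + (0) * x 1 + (-1) * x 2} ?_ (by simp) ?_ ?_ {![0,0,-1], ![-1,0,-4], ![0,-1,-4], ![-1,-1,-4]} ?_ ?_
  · rintro _ ⟨t, ht, x, hx, rfl⟩
    obtain ⟨b1, b2, b3, b4, b5, b6, b7, b8⟩ := ineq hx
    simp [toR]
    refine ⟨?_, ?_, ?_, ?_⟩ <;> nlinarith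
  · rintro x ⟨a0, a1, a2, a3⟩ y ⟨b0, b1, b2, b3⟩
    simp only [Set.mem_ofPred_eq, Pi.add_apply]
    refine ⟨?_, ?_, ?_, ?_⟩ <;> linarith
  · rintro t ht x ⟨a0, a1, a2, a3⟩
    simp only [Set.mem_ofPred_eq, Pi.smul_apply, smul_eq_mul]
    refine ⟨?_, ?_, ?_, ?_⟩ <;> nlinarith
  · intro g hg
    simp only [Set.mem_insert_iff, Set.mem_singleton_iff] at hg
    rcases hg with rfl | rfl | rfl | rfl
    · exact ⟨gen_mem _ ![1,1,4] _ (by decide) (by decide), by decide, _, p0, by rw [form_apply]; simp [toR] <;> norm_num⟩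
    · exact ⟨gen_mem _ ![0,1,1] _ (by decide) (by decide), by decide, _, p0, by rw [form_apply]; simp [toR] <;> norm_num⟩
    · exact ⟨gen_mem _ ![1,0,1] _ (by decide) (by decide), by decide, _, p1, by rw [form_apply]; simp [toR] <;> norm_num⟩
    · exact ⟨gen_mem _ ![0,0,1] _ (by decide) (by decide), by decide, _, p0, by rw [form_apply]; simp [toR] <;> norm_num⟩
  · rintro w ⟨a0, a1, a2, a3⟩
    have c0 : (0:ℤ) ≤ (-1) * w 0 + (0) * w 1 + (0) * w 2 := by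
      simp only [toR] at a0; exact_mod_cast a0
    have c1 : (0:ℤ) ≤ (0) * w 0 + (-1) * w 1 + (0) * w 2 := by
      simp only [toR] at a1; exact_mod_cast a1
    have c2 : (0:ℤ) ≤ (0) * w 0 + (4) * w 1 + (-1) * w 2 := by
      simp only [toR] at a2; exact_mod_cast a2
    have c3 : (0:ℤ) ≤ (4) * w 0 + (0) * w 1 + (-1) * w 2 := by
      simp only [toR] at a3; exact_mod_cast a3
    by_cases hxy : (0) * w 0 + (-1) * w 1 + (0) * w 2 ≤ (-1) * w 0 + (0) * w 1 + (0) * w 2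
    · obtain ⟨n0, e0⟩ := Int.eq_ofNat_of_zero_le (show (0:ℤ) ≤ (4) * w 0 + (0) * w 1 + (-1) * w 2 by omega)
      obtain ⟨n1, e1⟩ := Int.eq_ofNat_of_zero_le (show (0:ℤ) ≤ (-1) * w 0 + (1) * w 1 + (0) * w 2 by omega)
      obtain ⟨n2, e2⟩ := Int.eq_ofNat_of_zero_le (show (0:ℤ) ≤ (0) * w 0 + (-1) * w 1 + (0) * w 2 by omega)
      refine ⟨_, p0, ![0,0,-1], by simp, ![-1,0,-4], by simp, ![-1,-1,-4], by simp, n0, n1, n2, ?_, ?_⟩
      · funext i; fin_cases i <;> simp <;> omega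
      · have : (3) * w 0 + (0) * w 1 + (-1) * w 2 ≤ (n0 : ℤ) + n1 + n2 := by omega
        rw [form_apply]; simp only [toR]; exact_mod_cast this
    · obtain ⟨n0, e0⟩ := Int.eq_ofNat_of_zero_le (show (0:ℤ) ≤ (0) * w 0 + (4) * w 1 + (-1) * w 2 by omega)
      obtain ⟨n1, e1⟩ := Int.eq_ofNat_of_zero_le (show (0:ℤ) ≤ (1) * w 0 + (-1) * w 1 + (0) * w 2 by omega)
      obtain ⟨n2, e2⟩ := Int.eq_ofNat_of_zero_le (show (0:ℤ) ≤ (-1) * w 0 + (0) * w 1 + (0) * w 2 by omega)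
      refine ⟨_, p1, ![0,0,-1], by simp, ![0,-1,-4], by simp, ![-1,-1,-4], by simp, n0, n1, n2, ?_, ?_⟩
      · funext i; fin_cases i <;> simp <;> omega
      · have : (0) * w 0 + (3) * w 1 + (-1) * w 2 ≤ (n0 : ℤ) + n1 + n2 := by omega
        rw [form_apply]; simp only [toR]; exact_mod_cast this

theorem gamma_le : gammaPoly (poly S) ≤ 0 := by
  apply Real.sSup_nonpos
  rintro _ ⟨u, hu, rfl⟩
  obtain ⟨w, hw, rfl⟩ := extremePoints_convexHull_subset hu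
  simp only [S, Finset.coe_insert, Finset.coe_singleton, Set.mem_insert_iff,
      Set.mem_singleton_iff] at hw
  rcases hw with rfl | rfl | rfl | rfl | rfl | rfl | rfl | rfl
  exacts [cone0, cone1, cone2, cone3, cone4, cone5, cone6, cone7]

theorem latt_fin : (latt (poly S)).Finite := by
  refine (Set.Finite.pi' (t := fun _ : Fin 3 => Set.Icc (0:ℤ) 5) fun _ => Set.finite_Icc _ _).subset ?_
  intro w hw
  obtain ⟨b1, b2, b3, b4, b5, b6, b7, b8⟩ := ineq hw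
  simp only [toR] at b1 b2 b3 b4 b5 b6 b7 b8
  have c1 : (0:ℤ) ≤ w 0 := by exact_mod_cast b1
  have c2 : w 0 ≤ 1 := by exact_mod_cast b2
  have c3 : (0:ℤ) ≤ w 1 := by exact_mod_cast b3
  have c4 : w 1 ≤ 1 := by exact_mod_cast b4
  have c5 : (0:ℤ) ≤ w 2 := by exact_mod_cast b5
  have c7 : w 2 ≤ 1 + 4 * w 0 := by exact_mod_cast b7
  intro i
  fin_cases i <;> simp <;> omega

theorem left_ext (u v : Fin 3 → ℝ) : u ∈ (segment ℝ u v).extremePoints ℝ := by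
  rw [mem_extremePoints]
  refine ⟨left_mem_segment _ _ _, ?_⟩
  rintro x ⟨a, b, ha, hb, hab, rfl⟩ y ⟨c, d, hc, hd, hcd, rfl⟩ ⟨s, t, hs, ht, hst, e⟩
  have hz : (s * b + t * d) • (v - u) = 0 := by
    have h1 : a = 1 - b := by linarith
    have h2 : c = 1 - d := by linarith
    have h3 : s = 1 - t := by linarith
    subst h1 h2 h3
    linear_combination (norm := module) e
  rcases smul_eq_zero.1 hz with h | h
  · have hb0 : b = 0 := by nlinarith [mul_nonneg hs.le hb, mul_nonneg ht.le hd]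
    have hd0 : d = 0 := by nlinarith [mul_nonneg hs.le hb, mul_nonneg ht.le hd]
    have : a = 1 := by linarith
    have : c = 1 := by linarith
    simp [*]
  · have : v = u := sub_eq_zero.1 h
    subst this
    simp [← add_smul, hab, hcd]

theorem result : ∃ S : Finset (Fin 3 → ℤ), affineSpan ℝ (poly S) = ⊤ ∧
    (∀ u v, IsEdge (poly S) u v → gammaPoly (poly S) + 1 ≤ latticeLength u v) ∧
    ¬ IntegrallyClosed (poly S) := by
  refine ⟨S, ?_, ?_, ?_⟩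
  · rw [AffineSubspace.affineSpan_eq_top_iff_vectorSpan_eq_top_of_nonempty ℝ _ _
      ⟨_, memS (w := ![0,0,0]) (by decide)⟩, eq_top_iff]
    intro x _
    have h0 := memS (w := ![0,0,0]) (by decide)
    have h1 := vsub_mem_vectorSpan ℝ (memS (w := ![1,0,0]) (by decide)) h0
    have h2 := vsub_mem_vectorSpan ℝ (memS (w := ![0,1,0]) (by decide)) h0
    have h3 := vsub_mem_vectorSpan ℝ (memS (w := ![0,0,1]) (by decide)) h0
    have := Submodule.add_mem _ (Submodule.add_mem _ (Submodule.smul_mem _ (x 0) h1)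
      (Submodule.smul_mem _ (x 1) h2)) (Submodule.smul_mem _ (x 2) h3)
    convert this using 1
    funext i; fin_cases i <;> simp [toR]
  · rintro u v ⟨hne, hext⟩
    have hu := hext.extremePoints_subset_extremePoints (left_ext u v)
    have hv := hext.extremePoints_subset_extremePoints (segment_symm ℝ v u ▸ left_ext v u)
    obtain ⟨a, _, rfl⟩ := extremePoints_convexHull_subset hu
    obtain ⟨b, _, rfl⟩ := extremePoints_convexHull_subset hv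
    have hfin : (latt (segment ℝ (toR a) (toR b))).Finite :=
      latt_fin.subset fun w hw => hext.subset hw
    have hab : a ≠ b := fun h => hne (by rw [h])
    have h2 : ({a, b} : Set (Fin 3 → ℤ)).ncard ≤ (latt (segment ℝ (toR a) (toR b))).ncard := by
      refine Set.ncard_le_ncard ?_ hfin
      rintro w (rfl | rfl)
      · exact left_mem_segment _ _ _
      · exact right_mem_segment _ _ _
    rw [Set.ncard_pair hab] at h2
    have h3 : (2 : ℝ) ≤ (latt (segment ℝ (toR a) (toR b))).ncard := by exact_mod_cast h2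
    have := gamma_le
    unfold latticeLength
    linarith
  · intro h
    have hm : (![1,1,3] : Fin 3 → ℤ) ∈ latt (dil (1 + 1) (poly S)) := by
      have c := convex_convexHull ℝ (toR '' (S : Set (Fin 3 → ℤ)))
      have m1 := c (memS (w := ![1,0,1]) (by decide)) (memS (w := ![0,1,1]) (by decide))
        (a := 1/2) (b := 1/2) (by norm_num) (by norm_num) (by norm_num)
      have m2 := c (memS (w := ![0,0,0]) (by decide)) (memS (w := ![1,1,4]) (by decide))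
        (a := 1/2) (b := 1/2) (by norm_num) (by norm_num) (by norm_num)
      have m3 := c m1 m2 (a := 1/2) (b := 1/2) (by norm_num) (by norm_num) (by norm_num)
      refine ⟨_, m3, ?_⟩
      funext i; fin_cases i <;> simp [toR] <;> norm_num
    rw [← h 1 le_rfl] at hm
    obtain ⟨a, ha, b, ⟨x, hx, hb⟩, e⟩ := hm
    rw [Nat.cast_one, one_smul] at hb
    rw [← hb] at hx
    obtain ⟨b1, b2, b3, b4, b5, b6, b7, b8⟩ := ineq ha
    obtain ⟨d1, d2, d3, d4, d5, d6, d7, d8⟩ := ineq hx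
    simp only [toR] at b1 b2 b3 b4 b5 b6 b7 b8 d1 d2 d3 d4 d5 d6 d7 d8
    norm_cast at b1 b2 b3 b4 b5 b6 b7 b8 d1 d2 d3 d4 d5 d6 d7 d8
    have e0 := congrFun e 0
    have e1 := congrFun e 1
    have e2 := congrFun e 2
    simp at e0 e1 e2
    omega

end Pool.Agent.Results.MP_8f98a9_co.Counter
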